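import Pool.Agent.H64.EV.Targets

/-!
Board evn_modules (MP_fd35e1_ag), row OKE: the key lemma for supersymmetric forms.
-/

set_option autoImplicit false

open Matrix Pool.Agent.H64.CC Pool.Agent.H2.NL Pool.Agent.H64.EV

namespace Pool.Agent.H66.EV

/-- OKE: the key lemma. -/
theorem pf_OKE (hOMU : T_OMU) (hOPT : T_OPT) (hOPA : T_OPA) (hOCO : T_OCO) (hOWT : T_OWT)
    (hOBL : T_OBL) (hOTR : T_OTR) (hMLT : T_MLT) (hOSD : T_OSD) : T_OKE := by
  intro K _ _ V P _ _ _ _ F A hS t ht hg1 hg2 hg3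
  set g := F.M4 t with hg
  have hcalc := hS.calculus
  have hVn : Nonempty V := Fintype.card_pos_iff.1 (by have := hS.large; omega)
  have hpar := hOPA K (V ⊕ P) F A hcalc t ht
  have hcom := hOCO K V P F A hS t ht
  obtain ⟨w1, w2, w3⟩ := hOWT K V P F A hS g hcom
  obtain ⟨m, u, _, b2, b3, b4⟩ := hOBL K V P F A hS g hVn hpar hg1 hg2 hg3 w1 w2 w3
  have hpow : ∀ n : ℕ, ∃ tn ∈ A 2, F.M4 tn = g ^ (n + 1) := by
    intro n
    induction n with
    | zero => exact ⟨t, ht, by rw [zero_add, pow_one]⟩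
    | succ n ih =>
      obtain ⟨tn, htn, hn⟩ := ih
      obtain ⟨t', ht', hn'⟩ := hOMU K (V ⊕ P) F A hcalc tn htn t ht
      exact ⟨t', ht', by rw [hn', hn, ← hg, ← pow_succ]⟩
  obtain ⟨⟨N, hN1, hN2⟩, _⟩ := hOSD K V P F A hS
  have hq : ∀ n : ℕ, ∃ q : K, (∀ p : V, F.pt2 (g ^ (n + 1)) (Sum.inl p) (Sum.inl p) = q) ∧
      F.str2 (g ^ (n + 1)) = q * F.sd := by
    intro n
    obtain ⟨tn, htn, hn⟩ := hpow n
    obtain ⟨t', ht', hp⟩ := hOPT K (V ⊕ P) F A hcalc tn htn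
    rw [hn] at hp
    obtain ⟨q, hq1, hq2⟩ := hS.endo t' ht'
    refine ⟨(q : K), fun p => ?_, ?_⟩
    · rw [hp, hS.st_V, hq1]
    · have h1 : F.str2 (g ^ (n + 1)) =
          ∑ a, sg K (F.o a) * F.pt2 (g ^ (n + 1)) a a := by
        unfold OForm.str2 OForm.pt2
        rw [Fintype.sum_prod_type]
        refine Finset.sum_congr rfl fun a _ => ?_
        rw [Matrix.of_apply, Finset.mul_sum]
        refine Finset.sum_congr rfl fun b _ => ?_
        rw [mul_assoc]
      have h2 : con F.η 0 t' [] = ∑ a, F.c a * t' [a, F.st a] := by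
        have := F.con_append [] t' []
        exact this
      rw [h1, ← hq2, h2]
      refine Finset.sum_congr rfl fun a _ => ?_
      rw [hp, mul_comm (t' _), ← mul_assoc, F.sg_c_st]
  -- the traces of the powers
  have htr : ∀ n : ℕ, F.str2 (g ^ (n + 1)) =
      (2 ^ n * ∑ y : P, sg K (F.o (Sum.inr y)) * (m ^ (n + 1)) y y) * F.sd ∧
      (2 : K) * ∑ z : P × P, sg K (F.o (Sum.inr z.1) ^^ F.o (Sum.inr z.2)) *
        (u ^ (n + 1)) z z =
      (N : K) * ∑ y : P, sg K (!F.o (Sum.inr y)) * (((2 : K) • m) ^ (n + 1)) y y := by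
    intro n
    obtain ⟨c1, c2, c3, c4⟩ := b4 n
    obtain ⟨e1, e2⟩ := hOTR K V P F A hS (g ^ (n + 1)) (m ^ (n + 1)) (u ^ (n + 1)) (2 ^ n)
      c1 c2 c3 c4
    obtain ⟨q, q1, q2⟩ := hq n
    obtain ⟨p⟩ := hVn
    have hqq : q = 2 ^ n * ∑ y : P, sg K (F.o (Sum.inr y)) * (m ^ (n + 1)) y y := by
      rw [← q1 p, e2 p]
    refine ⟨by rw [q2, hqq], ?_⟩
    have hsg : ∀ a b : Bool, sg K (a ^^ b) = sg K a * sg K b := by
      intro a b
      cases a <;> cases b <;> simp [sg]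
    have hnot : ∀ a : Bool, sg K (!a) = -sg K a := by
      intro a
      cases a <;> simp [sg]
    simp only [hsg]
    have h3 : ∑ y : P, sg K (!F.o (Sum.inr y)) * (((2 : K) • m) ^ (n + 1)) y y =
        -(2 ^ (n + 1) * ∑ y : P, sg K (F.o (Sum.inr y)) * (m ^ (n + 1)) y y) := by
      rw [smul_pow, Finset.mul_sum, ← Finset.sum_neg_distrib]
      refine Finset.sum_congr rfl fun y _ => ?_
      rw [Matrix.smul_apply, smul_eq_mul, hnot]
      ring
    rw [h3, ← hN2]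
    rw [q2, hqq] at e1
    have h4 : ∑ z : P × P, sg K (F.o (Sum.inr z.1)) * sg K (F.o (Sum.inr z.2)) *
        (u ^ (n + 1)) z z =
        2 ^ n * (∑ y : P, sg K (F.o (Sum.inr y)) * (m ^ (n + 1)) y y) * F.sd -
        2 * (Fintype.card V : K) * 2 ^ n *
          ∑ y : P, sg K (F.o (Sum.inr y)) * (m ^ (n + 1)) y y := by
      rw [e1]
      ring
    rw [h4, pow_succ]
    ring
  have hS0 : ∑ y : P, sg K (!F.o (Sum.inr y)) * m y y = 0 := by
    refine hMLT K P (P × P) (fun y => !F.o (Sum.inr y))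
      (fun z => F.o (Sum.inr z.1) ^^ F.o (Sum.inr z.2)) m u N ?_ ?_ ?_ fun n => (htr n).2
    · intro a b hab
      show (!F.o (Sum.inr a)) = !F.o (Sum.inr b)
      rw [b3 a b hab]
    · intro a b hab
      rw [b2] at hab
      exact hpar _ _ hab
    · rw [Fintype.card_prod, ← pow_two]
      exact hN1
  have hS1 : ∑ y : P, sg K (F.o (Sum.inr y)) * m y y = 0 := by
    have h : ∑ y : P, sg K (F.o (Sum.inr y)) * m y y =
        -∑ y : P, sg K (!F.o (Sum.inr y)) * m y y := by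
      rw [← Finset.sum_neg_distrib]
      refine Finset.sum_congr rfl fun y _ => ?_
      cases F.o (Sum.inr y) <;> simp [sg]
    rw [h, hS0, neg_zero]
  have h0 := (htr 0).1
  rw [zero_add, pow_one, pow_zero, pow_one, hS1] at h0
  rw [h0]
  ring

end Pool.Agent.H66.EV
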