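import Pool.Agent.H64.EV.Targets

/-!
Board evn_modules (MP_fd35e1_ag), row TN3: the component of the symmetrization of the identity is
not nilpotent.
-/

set_option autoImplicit false
set_option linter.unusedSectionVars false

open Matrix Pool.Agent.H64.CC Pool.Agent.H2.NL Pool.Agent.H64.EV

namespace Pool.Agent.H66.EV.TN3

section

variable {K : Type} [Field K] [CharZero K] {I : Type} [Fintype I] [DecidableEq I]

theorem zip_prod (F : OForm K I) (a : I) : ∀ (v : List I),
    (List.zipWith (fun x b => F.η x b) v (List.replicate v.length a)).prod =
      if v = List.replicate v.length (F.st a) then F.c (F.st a) ^ v.length else 0 := by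
  intro v
  induction v with
  | nil => simp
  | cons x v ih =>
    rw [List.length_cons, List.replicate_succ, List.zipWith_cons_cons, List.prod_cons, ih,
      List.replicate_succ]
    have h1 : F.η x a = if x = F.st a then F.c (F.st a) else 0 := by
      rw [OForm.η, Matrix.of_apply]
      by_cases h : x = F.st a
      · have h' : a = F.st x := by rw [h, F.st_st]
        rw [if_pos h', if_pos h, h]
      · rw [if_neg h, if_neg]
        intro h'
        exact h (by rw [h', F.st_st])
    rw [h1]
    by_cases h : x = F.st a
    · by_cases h2 : v = List.replicate v.length (F.st a)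
      · rw [if_pos h, if_pos h2, if_pos (by rw [h]; congr 1), pow_succ, mul_comm]
      · rw [if_pos h, if_neg h2, if_neg, mul_zero]
        intro h3
        exact h2 (List.cons.inj h3).2
    · rw [if_neg h, zero_mul, if_neg]
      intro h3
      exact h (List.cons.inj h3).1

theorem op_replicate (F : OForm K I) (l : ℕ) (Z : List I → K) (a : I)
    (u : List.Vector I l) (r : List.Vector I l) (hr : r.1 = List.replicate l a) :
    op F.η l Z u r = Z (u.1 ++ List.replicate l (F.st a)) * F.c (F.st a) ^ l := by
  have hlen : (List.replicate l (F.st a)).length = l := List.length_replicate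
  show (∑ v : List.Vector I l, Z (u.1 ++ v.1) *
    (List.zipWith (fun a b => F.η a b) v.1.reverse r.1).prod) = _
  refine (Finset.sum_eq_single (⟨List.replicate l (F.st a), hlen⟩ : List.Vector I l)
    ?_ ?_).trans ?_
  · intro v _ hv
    rw [hr]
    have h := zip_prod F a v.1.reverse
    rw [List.length_reverse, v.2] at h
    rw [h, if_neg, mul_zero]
    intro h2
    apply hv
    apply Subtype.ext
    show v.1 = List.replicate l (F.st a)
    have h3 := congrArg List.reverse h2
    rwa [List.reverse_reverse, List.reverse_replicate] at h3
  · intro h
    exact absurd (Finset.mem_univ (α := List.Vector I l) _) h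
  · rw [hr]
    have h := zip_prod F a (List.replicate l (F.st a)).reverse
    rw [List.reverse_replicate, hlen, if_pos rfl] at h
    show Z (u.1 ++ List.replicate l (F.st a)) *
      (List.zipWith (fun a b => F.η a b) (List.replicate l (F.st a)).reverse _).prod = _
    rw [List.reverse_replicate, h]

theorem pow_col {J : Type} [Fintype J] [DecidableEq J] (M : Matrix J J K) (r : J) (c : K)
    (h0 : ∀ u, u ≠ r → M u r = 0) (h1 : M r r = c) (N : ℕ) : (M ^ N) r r = c ^ N := by
  induction N with
  | zero => simp
  | succ N ih =>
    rw [pow_succ, Matrix.mul_apply, Finset.sum_eq_single r, ih, h1, pow_succ]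
    · intro v _ hv
      rw [h0 v hv, mul_zero]
    · intro h
      exact absurd (Finset.mem_univ _) h

theorem zip_false (u : List I) : ∀ l : ℕ, u.length = l →
    u.zip (List.replicate l false) = u.map fun x => (x, false) := by
  induction u with
  | nil => intro l _; rfl
  | cons x u ih =>
    intro l hl
    cases l with
    | zero => exact absurd hl (by simp)
    | succ l =>
      rw [List.replicate_succ, List.zip_cons_cons, List.map_cons, ih l (by simpa using hl)]

theorem zip_true (l : ℕ) (b : I) : (List.replicate l b).zip (List.replicate l true) =
    List.replicate l (b, true) := by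
  induction l with
  | zero => rfl
  | succ l ih => rw [List.replicate_succ, List.replicate_succ, List.zip_cons_cons, ih,
      List.replicate_succ]

theorem map_inj (u : List I) (l : ℕ) (a : I)
    (h : (u.map fun x => (x, false)) = List.replicate l (a, false)) :
    u = List.replicate l a := by
  have h1 := congrArg (List.map Prod.fst) h
  rw [List.map_map, List.map_replicate] at h1
  have h2 : (u.map (Prod.fst ∘ fun x => (x, false))) = u := by
    have : (Prod.fst ∘ fun x : I => (x, false)) = id := rfl
    rw [this, List.map_id]
  rw [h2] at h1
  exact h1

/-- the value of `Z'` at the words which matter -/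
theorem Zc_eq (F : OForm K I) (L : List (List ℕ)) (l : ℕ) (u : List I) (hu : u.length = l)
    (b : I) : F.Zc L l (u ++ List.replicate l b) =
      (F.lw 0 ((u.map fun x => (x, false)) ++ List.replicate l (b, true)))⁻¹ *
      (L.map fun js => sws F.tl.o js (idt F.tl.ω l)
        ((u.map fun x => (x, false)) ++ List.replicate l (b, true))).sum := by
  have hz : (u ++ List.replicate l b).zip (List.replicate l false ++ List.replicate l true) =
      (u.map fun x => (x, false)) ++ List.replicate l (b, true) := by
    rw [List.zip_append (by rw [hu, List.length_replicate]), zip_false u l hu, zip_true]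
  show (F.lw 0 ((u ++ List.replicate l b).zip
      (List.replicate l false ++ List.replicate l true)))⁻¹ *
    (L.map fun js => sws F.tl.o js (idt F.tl.ω l) ((u ++ List.replicate l b).zip
      (List.replicate l false ++ List.replicate l true))).sum = _
  rw [hz]

end

end Pool.Agent.H66.EV.TN3

namespace Pool.Agent.H66.EV

open Pool.Agent.H66.EV.TN3

/-- TN3: it is not nilpotent. -/
theorem pf_TN3 (hEIG : T_EIG) : T_TN3 := by
  intro K _ _ I _ _ F l L a hnil hbd ha N hN
  have hoa : F.tl.o (a, false) = false := by
    show (!F.o a) = false
    rw [ha]
    rfl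
  obtain ⟨hE1, ⟨c, hc1, hc⟩, -⟩ := hEIG K (I × Bool) F.tl l L (a, false) hnil hbd hoa
  have hst : F.tl.st (a, false) = (F.st a, true) := rfl
  rw [hst] at hE1 hc
  have hr : (List.replicate l a).length = l := List.length_replicate
  have hc0 : (c : K) ≠ 0 := by
    have : 0 < c := hc1
    exact_mod_cast this.ne'
  have h := pow_col (op F.η l (F.Zc L l)) ⟨List.replicate l a, hr⟩
    ((F.lw 0 ((List.map (fun x => (x, false)) (List.replicate l a)) ++
      List.replicate l (F.st a, true)))⁻¹ * (c : K) * F.c (F.st a) ^ l)
    (fun u hu => by
      rw [op_replicate F l _ a u _ rfl]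
      have h0 : F.Zc L l (u.1 ++ List.replicate l (F.st a)) = 0 := by
        rw [Zc_eq F L l u.1 u.2]
        have h1 : (L.map fun js => sws F.tl.o js (idt F.tl.ω l)
            ((u.1.map fun x => (x, false)) ++ List.replicate l (F.st a, true))).sum = 0 := by
          by_contra h2
          have h3 := hE1 (u.1.map fun x => (x, false)) (by rw [List.length_map]; exact u.2) h2
          exact hu (Subtype.ext (map_inj u.1 l a h3))
        rw [h1, mul_zero]
      rw [h0, zero_mul])
    (by
      rw [op_replicate F l _ a _ _ rfl]
      have h0 : F.Zc L l (List.replicate l a ++ List.replicate l (F.st a)) =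
          (F.lw 0 ((List.map (fun x => (x, false)) (List.replicate l a)) ++
            List.replicate l (F.st a, true)))⁻¹ * (c : K) := by
        rw [Zc_eq F L l (List.replicate l a) hr]
        have h1 : (List.replicate l a).map (fun x => (x, false)) =
            List.replicate l (a, false) := List.map_replicate
        rw [h1, hc]
      rw [← h0]) N
  rw [hN] at h
  have h2 := h.symm
  exact pow_ne_zero N (mul_ne_zero (mul_ne_zero (inv_ne_zero (F.lw_ne _ _)) hc0)
    (pow_ne_zero _ (F.c_ne _))) h2

end Pool.Agent.H66.EV
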